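import Pool.Agent.R852.MX.Eq

set_option autoImplicit false

/-! # The equivariant motivic monodromy conjecture for products of powers of forms over products of determinantal ideals

Let `x` be the generic matrix of one of the three spaces `S` of matrices: all `m × n` matrices, the
symmetric `n × n` matrices, the skew symmetric `n × n` matrices (`MSpace`). Let `p t`, `t < T`, be sizes
of minors (of Pfaffians of size `2 (p t)` in the skew symmetric case), `p t < min (m, n)`, `p t < n`, or
`2 (p t) + 1 < n` (`Small`), which are distributed over `B` blocks: `t` belongs to the block `β t`. For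
`b < B` let

  `F_b = ∑_J y_{b,J} ∏_{β t = b} M_{J t}(x)`,

where `J` runs over the choices of one minor (Pfaffian) `M_{J t}` of size `p t` for each `t` in the block
`b`, and the `y_{b,J}` are further variables. So `F_b` is the form over the product of the ideals of the
minors of the sizes `p t`, `β t = b`. Let `f = ∏ b, F_b ^ a b` (`mixForm`, with
integral coefficients).

Let `P` be the maximum of the `p t` with `a (β t) > 0`, and let `Y` be the space obtained by blowing up
the matrices of rank `≤ 0`, the strict transform of the matrices of rank `≤ 1` (`≤ 2`), …, the
strict transform of the matrices of rank `≤ P - 1` (`≤ 2 (P - 1)`): the complete collineations,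
complete quadrics, complete skew forms, up to the rank `P`. It is smooth, the strict transforms
`E_d`, `d < P`, of the exceptional divisors cross normally, the multiplicity of the Jacobian
determinant along `E_d` is `ν_d - 1`, where `ν_d` is the codimension of the locus of the matrices
of rank `≤ d` (`≤ 2 d`), and for `p ≤ P` the ideal of the minors of size `p` is locally generated
by one of them and has the multiplicity `max (p - d, 0)` along `E_d`. So the product of the ideals of a
block is locally generated by one of the products `M_J = ∏_{β t = b} M_{J t}`, and the form `F_b` is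
`M_J` times `y_{b,J} + ∑_{I ≠ J} g_I y_{b,I}`; hence `Y` times the space of the `y` is an embedded
resolution of `f`, with the components `E_d`, `d < P`, of multiplicity
`N_d = ∑ t, a (β t) max (p t - d, 0)`, and, for `a b > 0`, the strict transform of `F_b = 0`, with
multiplicity `a b` and `ν = 1` (`mulM`, `MSpace.nu`). It is defined over the prime field.

By the formula of Denef and Loeser the equivariant motivic zeta function of `f` over
`X_s = {f = 0}` is `∑_I c_I ∏_{i ∈ I} 𝕃 ^ (-ν_i) T ^ (N_i) / (1 - 𝕃 ^ (-ν_i) T ^ (N_i))` (`dlZ`), where `I`
runs over the non-empty sets of components and `c_I ∈ 𝓜^μ_{X_s}` is `(𝕃 - 1) ^ (|I| - 1)` times the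
class of the covering of the stratum `I` with its action of `μ`. The ring `R` below is a
commutative ring with a unit `u`, for example `R = 𝓜^μ_{X_s}` with `u = 𝕃`.

The proof for the roots: a functional equation of `f` gives a functional equation of the product of
the powers of the ideals of the blocks, with the same `b` (`locEq_of_powProd`; for one
form and `a = 1` this is one direction of a theorem of Mustata, 2019), which is one of the product of
powers of the ideals of the minors (`mix_data`), and the `E_d` are Rees divisors of this ideal; the
roots `-1 / a b` come from the strict transforms (`strict_root`). -/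

namespace Pool.Agent.Results.MP_b48657_ag.MixedDeterminantal

open MvPolynomial Pool.Agent.H628R4.TP Pool.Agent.TH192.DT Pool.Agent.R852.MX

/-- **The equivariant motivic monodromy conjecture for `f = ∏ b, F_b ^ a b`**, `F_b` the forms over
products of ideals of minors (Pfaffians) of a generic, symmetric or skew symmetric matrix. There is
a finite set `P` of pairs `(a, b)`, `a < 0 < b`, such that `a / b` is a root of every `b'` with
`b'(s) f ^ s = P(s) f ^ (s + 1)`, in particular of the Bernstein-Sato polynomial of `f`, and for every
commutative ring `R` with a unit `u` (`𝓜^μ_{X_s}` and `𝕃`) every series which is given by the formula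
of Denef and Loeser on the resolution described above, with arbitrary `c I ∈ R`, lies in the ring
generated over `R` by `T` and the `1 / (1 - u ^ a T ^ b)`, `(a, b) ∈ P`. -/
theorem result (S : MSpace) (T B : ℕ) (p : Fin T → ℕ) (β : Fin T → Fin B) (a : Fin B → ℕ)
    (hp : ∀ t, S.Small (p t)) :
    ∃ P : Finset (ℤ × ℤ), (∀ q ∈ P, q.1 < 0 ∧ 0 < q.2 ∧
      ∀ b : Polynomial ℂ, IsBFunction (map (Int.castRingHom ℂ) (mixForm S p β a)) b →
        b.eval ((q.1 : ℂ) / q.2) = 0) ∧
    ∀ (R : Type) [CommRing R] (u : Rˣ) (c : Finset {i // 0 < mulM S p β a i} → R),
      dlZ u (S.nu B) (mulM S p β a) c ∈ ratU u (P : Set (ℤ × ℤ)) :=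
  ⟨pairs (S.nu B) (mulM S p β a),
    fun q hq => ⟨(pairs_sign _ _ (S.nu_pos B) q hq).1, (pairs_sign _ _ (S.nu_pos B) q hq).2,
    fun b hb => pairs_roots _ _ (S.nu_pos B) b
      (fun i l hl => mix_rootsE S p β a hp b hb i l hl) q hq⟩,
    fun _ _ u c => dlZ_mem u _ _ c⟩

end Pool.Agent.Results.MP_b48657_ag.MixedDeterminantal
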