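import Pool.Agent.R852.BM.Ports

set_option autoImplicit false

/-! # The equivariant motivic monodromy conjecture for products of powers of forms over ideals with Rees divisors

Let `g t j ∈ ℂ[x_i]`, `t ∈ T`, be generators of ideals `I_t ≠ 0` (no condition on the dimension, on
the number of the ideals or on their zero sets), let `F_t = ∑_j y_{t,j} g t j`, where the `y_{t,j}`
are further variables, separate for each `t` (`blockForm`), and let `f = ∏ t, F_t ^ a t` (`powProd`).
Let `Y` be a log resolution of the product of the `I_t` with `a t > 0`, with the components `E_i`,
`i ∈ I`, let `k i` be the multiplicity of `E_i` in the relative canonical divisor and `m i t` the order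
of `I_t` along `E_i`. Locally on `Y` the form `F_t` is one of the `g t j` times
`y_{t,j} + ∑_{i ≠ j} h_i y_{t,i}`, so it is a monomial times a function whose zero locus is smooth;
these zero loci, for the different `t`, cross each other and the `E_i` normally. Hence `Y` times the
space of the `y` is an embedded resolution of `f`, with the components `E_i`, of multiplicity
`N_i = ∑ t, a t * m i t` (and `ν_i = k i + 1`), and, for `a t > 0`, the strict transform of `F_t = 0`, of
multiplicity `a t` (and `ν = 1`): `mulR`, `nuR`.

So the equivariant motivic zeta function `Z_f` of the problem, computed on this resolution, is of the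
form `dlZ = ∑_J c_J ∏_{i ∈ J} u ^ (-ν_i) T ^ (N_i) / (1 - u ^ (-ν_i) T ^ (N_i))`, with `u = 𝕃`, `R` the
localised Grothendieck ring `𝓜^μ_{X_s}` of varieties over `X_s` with good action of `μ`,
`c_J = (𝕃 - 1) ^ (|J| - 1) [Ẽ_J°]` for `J ≠ ∅`, with the action of `μ` on the coverings `Ẽ_J°` of the
strata (Denef and Loeser), and `c_∅ = 0`.

The theorem: if the `E_i` which occur in a stratum with `c_J ≠ 0` are Rees divisors of the product of
the ideals, or if at least their numbers `-ν_i / N_i` come from Rees divisors (`FromRees`), then
every denominator of the motivic zeta function belongs to a root of the Bernstein-Sato polynomial of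
`f`. This is the statement of Q1, with `(a, b) = (q₁, q₂)`.

The proof: a functional equation of `f` gives a functional equation of the product of the powers of
the ideals, with the same `b`; a Rees divisor of this product gives roots, by a residue computation at
a general point of `E_i`; the roots `-1 / a t` come from the strict transforms. -/

namespace Pool.Agent.Results.MP_b48657_ag.ReesProducts

open Pool.Agent.H628R4.TP Pool.Agent.TH192.DT Pool.Agent.Y231.RF Pool.Agent.Y228.RR
  Pool.Agent.R852.BM

/-- **The equivariant motivic monodromy conjecture for products of powers of forms over ideals whose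
exceptional divisors are Rees divisors.** Let `Z` be a series of the form of the formula of Denef and
Loeser for `f = ∏ t, F_t ^ a t`, `F_t = ∑_j y_{t,j} g t j`, on the resolution described above, with
coefficients `χ J` in a commutative ring `R` with a unit `u` (see above). There is a finite set `𝒮`
of pairs `q₁ < 0 < q₂` such that `Z` lies in the ring generated over `R` by `T` and the
`1 / (1 - u ^ q₁ T ^ q₂)`, `q ∈ 𝒮`, and such that, if the numbers `-ν_i / N_i` of the components `E_i`
which occur in a `J` with `χ J ≠ 0` come from Rees divisors, then `q₁ / q₂` is a root of every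
`b` with `IsBFunction f b`, for all `q ∈ 𝒮`. `IsBFunction f b` says that `b(s) f ^ s = P(s) f ^ (s + 1)`, `P(s)` a differential operator with
polynomial coefficients; for example the Bernstein-Sato polynomial `b_f`.

`FromRees g a H ν N` says that `ν / N = (k_E + 1 + l) / N_E` for a Rees divisor `E` of the product of
the ideals `I_t` with `a t ≠ 0` and a general point of `E` over a point of the affine space at which
`H` does not vanish, where `k_E` is the multiplicity of `E` in the relative canonical divisor, `N_E`
is the order of `∏ t, I_t ^ a t` along `E`, and `l < N_E` is the order along `E` of some polynomial (for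
instance `1`, with `l = 0`); for a component `E_i` which is itself a Rees divisor this is so with
`E = E_i` and `l = 0`.

`Chart g` is a formal chart of the resolution at a point `p` of a prime divisor `E` over the affine
space: power series `ξ i` (the coordinates `x i` of the affine space), in formal coordinates at `p`
one of which, `z`, is the equation of `E`, whose Jacobian determinant is `z ^ k` times a unit, and
for which each `I_t` becomes `(z ^ m t)`. `E.IsRees A` says that the map from `E` to the product of
the affine space and of the projective spaces of the generators of the `I_t`, `t ∈ A`, is unramified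
at `p`: some functions which together with `z` are formal coordinates at `p` are pull-backs of
polynomials or of quotients `(∑ j, c_j g s j) / g s (j0 s)`, `s ∈ A`. This is so at the general points
of a divisor `E` if and only if `E` is a Rees divisor of the product of the `I_t`, `t ∈ A`. -/
theorem result {σ T I : Type} [Fintype σ] [DecidableEq σ] [Fintype T] [DecidableEq T] [Fintype I]
    {κ : T → Type} [∀ t, Fintype (κ t)] [∀ t, DecidableEq (κ t)]
    (g : (t : T) → κ t → MvPolynomial σ ℂ) (hg : ∀ t, ∃ j, g t j ≠ 0) (a : T → ℕ)
    (k : I → ℕ) (m : I → T → ℕ) (R : Type) [CommRing R] (u : Rˣ)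
    (χ : Finset {x // 0 < mulR a m x} → R) :
    ∃ 𝒮 : Finset (ℤ × ℤ), dlZ u (nuR k T) (mulR a m) χ ∈ ratU u (𝒮 : Set (ℤ × ℤ)) ∧
      ∀ q ∈ 𝒮, q.1 < 0 ∧ 0 < q.2 ∧
        ((∀ i, (∃ J, χ J ≠ 0 ∧ ∃ x ∈ J, x.1 = Sum.inl i) →
            FromRees g a 1 (k i + 1) (∑ t, a t * m i t)) →
          ∀ b : Polynomial ℂ, IsBFunction (powProd a g) b → b.eval ((q.1 : ℂ) / q.2) = 0) := by
  obtain ⟨𝒮, h1, h2⟩ := rees_set g hg a k m u χ
  exact ⟨𝒮, h1, fun q hq => ⟨(h2 q hq).1, (h2 q hq).2.1, fun h b hb => (h2 q hq).2.2.1 h b hb⟩⟩

end Pool.Agent.Results.MP_b48657_ag.ReesProducts
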